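import Pool.Agent.K4H77.DI

set_option autoImplicit false

/-!
# Record gaps of randomly displaced primes

Move every prime `p`, independently of the others, to a uniformly distributed random integer of
`[p - w(p), p + w(p)]`, and let `S` be the set of the new positions.  How large are the record gaps
of `S`, compared with `(log x)^2`, for a given size `w` of the displacements?

* For `w(n) = o((log n)^2)` the number `L(S)` is the (unknown) number `L` of the primes.
* For `w(n) ~ lam (log n)^2` it still differs from `L` by at most `2 lam`, but now `L(S) > 0` can be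
  proved, however small `lam > 0` is.  For large `lam` the value is larger than Cramér's value `1`:
  `L(S) > 1` for `lam ≥ 7`, and `L(S)` is at least `2 e^{-γ} - o(1)`, Granville's value, as
  `lam → ∞`.
* For larger ranges `w(n) = o(n)`, `L(S) ≥ 1`.
* If `w` is regular and `w(n) ≥ n^{1-δ}` then `1 ≤ L(S) ≤ C`.
* If `w` is regular and `w(n) ≥ n / (log n)^A` for some `A` then `L(S) = 1`, Cramér's value.

The proofs: the events that disjoint windows contain no point of `S` are pairwise negatively
correlated, so that the second moment method applies; the cost of an empty window of length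
`c (log n)^2` is computed from the number of the primes at distance at most `w(n)`, which is at most
the average for a positive proportion of the windows, and smaller than the average, by Maier's matrix
method (starting files `H510R2/Maier`), when `w(n)` is comparable to `(log n)^2`.  The upper bounds
use Hoheisel's theorem (starting files `H295R3`) and the prime number theorem with error term
`O(x / (log x)^U)` (starting files `H442R2/EHI/PntErr`).
-/

namespace Pool.Agent.Results.MP_ff81b6_nt.DisplacedPrimes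

open MeasureTheory Filter
open Pool.Agent.K4H77.Noise (supGap)
open Pool.Agent.K4H77.Displ
open scoped Topology

/-- the displaced primes exist (this is not part of `result`) -/
theorem exist (w : ℕ → ℕ) (hw : ∀ n, 4 * w n ≤ n) :
    ∃ (Ω : Type) (_ : MeasurableSpace Ω) (P : Measure Ω) (_ : IsProbabilityMeasure P)
      (X : ℕ → Ω → ℕ), Displaced w P X := exists_displaced hw

/-- Let `S` be the set of the primes displaced with range `w`, where `4 w(n) ≤ n`, let `L(S)` be the
limit superior of `(s_{k+1} - s_k) / (log s_k)^2` for `S = {s_0 < s_1 < ...}`, and `L` the same number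
for the primes.  Almost surely `S` is infinite, and

(a) if `w(n) / (log n)^2 → lam ∈ [0, ∞)` then `L(S) ≤ L + 2 lam` and `L ≤ L(S) + 2 lam`, moreover
`L(S) > 0` if `lam > 0`, and `L(S) > 1` if `lam ≥ 7`;

(b) for every `c < 2 e^{-γ}` there is `lam₀` such that `L(S) ≥ c` if
`w(n) / (log n)^2 → lam ≥ lam₀`;

(c) if `w(n) / (log n)^2 → ∞` and `w(n) / n → 0` then `L(S) ≥ 1`;

(d) if `w` is regular and `w(n) ≥ n^{1-δ}` for large `n` then `1 ≤ L(S) ≤ C` (`δ > 0` and `C` are
absolute);

(e) if `w` is regular and `w(n) ≥ n / (log n)^A` for large `n`, for some `A`, then `L(S) = 1`. -/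
theorem result :
    (∀ (w : ℕ → ℕ) (lam : ℝ), (∀ n, 4 * w n ≤ n) → 0 ≤ lam →
      Tendsto (fun n : ℕ => (w n : ℝ) / (Real.log n) ^ 2) atTop (𝓝 lam) →
      AlmostSurely w (fun L => L ≤ supGap {p | p.Prime} + ENNReal.ofReal (2 * lam) ∧
        supGap {p | p.Prime} ≤ L + ENNReal.ofReal (2 * lam) ∧
        (0 < lam → 0 < L) ∧ (7 ≤ lam → 1 < L))) ∧
    (∀ c : ℝ, c < 2 * Real.exp (-Real.eulerMascheroniConstant) → ∃ lam₀ : ℝ,
      ∀ (w : ℕ → ℕ) (lam : ℝ), (∀ n, 4 * w n ≤ n) → lam₀ ≤ lam →
        Tendsto (fun n : ℕ => (w n : ℝ) / (Real.log n) ^ 2) atTop (𝓝 lam) →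
        AlmostSurely w (fun L => ENNReal.ofReal c ≤ L)) ∧
    (∀ w : ℕ → ℕ, (∀ n, 4 * w n ≤ n) → Tendsto (fun n : ℕ => (w n : ℝ) / n) atTop (𝓝 0) →
      Tendsto (fun n : ℕ => (w n : ℝ) / (Real.log n) ^ 2) atTop atTop →
      AlmostSurely w (fun L => 1 ≤ L)) ∧
    (∃ δ C : ℝ, 0 < δ ∧ ∀ w : ℕ → ℕ, (∀ n, 4 * w n ≤ n) → Regular w →
      (∀ᶠ n : ℕ in atTop, (n : ℝ) ^ (1 - δ) ≤ w n) →
      AlmostSurely w (fun L => 1 ≤ L ∧ L ≤ ENNReal.ofReal C)) ∧
    (∀ (w : ℕ → ℕ) (A : ℕ), (∀ n, 4 * w n ≤ n) → Regular w →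
      (∀ᶠ n : ℕ in atTop, (n : ℝ) / (Real.log n) ^ A ≤ w n) →
      AlmostSurely w (fun L => L = 1)) := by
  refine ⟨?_, fun c hc => main_e hc, fun w hw h1 h2 => main_a hw h1 h2, main_c,
    fun w A hw h1 h2 => main_b hw h1 h2⟩
  intro w lam hw hlam hlim Ω _ P _ X hX
  by_cases h0 : 0 < lam
  · filter_upwards [main_f hw hlam hlim Ω P X hX, main_d hw h0 hlim Ω P X hX] with ω h1 h2
    exact ⟨h1.1, h1.2.1, h1.2.2, fun _ => h2.2.1, h2.2.2⟩
  · filter_upwards [main_f hw hlam hlim Ω P X hX] with ω h1
    exact ⟨h1.1, h1.2.1, h1.2.2, fun h => absurd h h0, fun h => absurd (by linarith) h0⟩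

end Pool.Agent.Results.MP_ff81b6_nt.DisplacedPrimes
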