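import Pool.Agent.K4H77.NG

set_option autoImplicit false

/-!
# Record gaps of random perturbations of the primes

Delete every prime `p`, independently of the others, with probability `e^{-ℓ(p)}`, and afterwards
insert every natural number `n`, independently, with probability `min(1, κ / log n)`.
For `κ = 0` this is a random subset of the primes, for `ℓ = 0` all primes are deleted and the random
set is Cramér's model (for `κ = 1`).  The primes themselves are the limiting case `ℓ = ∞`, `κ = 0`.

The theorem says that Cramér's lower bound `L > 0`, which is open for the primes, holds for almost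
every perturbation with a fixed deletion probability `q = e^{-ℓ} > 0`, however small, that both
bounds `0 < L < ∞` hold when in addition `κ > 0`, and what happens when the deletion probability
`e^{-ℓ(p)}` tends to `0`.  For random subsets of the primes that keep each prime with probability
`1 - q ≤ 1/5` the number `L` is larger than the value `1 / (1 - q)` that Cramér's model predicts
for them.

What is new in the proof: the starting files (`H510R2/Maier`) contain a quantitative form of Maier's
theorem, `x^{1-o(1)}` of the windows `(n, n + c (log n)^2]`, `n ≤ x`, contain at most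
`(e^γ/2 + o(1)) c log n` primes.  The cost of emptying such a window by random deletions is a power
`x^{-τ}` with `τ < 1`, so that among the many disjoint windows some are emptied.
-/

namespace Pool.Agent.Results.MP_ff81b6_nt.RandomPerturbations

open MeasureTheory Filter
open Pool.Agent.K4H77.Noise
open scoped Topology

/-- the random sets of the theorem exist (this is not part of `result`) -/
theorem exist (ℓ : ℕ → ℝ) (κ : ℝ) (hℓ : ∀ n, 0 ≤ ℓ n) (hκ : 0 ≤ κ) :
    ∃ (P : Measure (ℕ → Bool)) (_ : IsProbabilityMeasure P) (A : ℕ → Set (ℕ → Bool)),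
      Perturbed ℓ κ P A := exists_perturbed hℓ hκ

/-- Let `A n` be the event that `n` belongs to the perturbed set of primes: a prime `p` is deleted with
probability `e^{-ℓ(p)}`, then each `n` is inserted with probability `min(1, κ / log n)`, everything
independently.  Here `ℓ ≥ 0` is non-decreasing and slowly varying, `ℓ(n) = O(log n)`, and `ℓ(0) > 0`
or `κ > 0`.  Then, almost surely, the random set `s_0 < s_1 < ...` is infinite and

(a) `limsup_k (s_{k+1} - s_k) (κ + (e^γ / 2) ℓ(s_k)) / (log s_k)^2 ≥ 1`;

(b) `limsup_k (s_{k+1} - s_k) / (log s_k)^2 ≤ 1 / κ`, if `κ > 0`;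

(c) `limsup_k (s_{k+1} - s_k) / (log s_k)^2 > 1 / (1 - q)`, if `κ = 0` and `e^{-ℓ} = q` is constant
with `4 / 5 ≤ q < 1`, i.e. for the random subsets of the primes that keep each prime with probability
`1 - q ≤ 1 / 5`. -/
theorem result (Ω : Type) [MeasurableSpace Ω] (P : Measure Ω) [IsProbabilityMeasure P]
    (A : ℕ → Set Ω) (ℓ : ℕ → ℝ) (κ C : ℝ) (hℓ : ∀ n, 0 ≤ ℓ n) (hmono : Monotone ℓ) (hκ : 0 ≤ κ)
    (hpos : 0 < ℓ 0 ∨ 0 < κ)
    (hsv : Tendsto (fun n => (1 + ℓ (2 * n)) / (1 + ℓ n)) atTop (𝓝 1))
    (hC : ∀ᶠ n : ℕ in atTop, ℓ n ≤ C * Real.log n)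
    (hA : Perturbed ℓ κ P A) :
    (∀ᵐ ω ∂P, (rset A ω).Infinite ∧
      1 ≤ limsup (fun k => ENNReal.ofReal (ngap (rset A ω) k *
        (κ + Real.exp Real.eulerMascheroniConstant / 2 * ℓ (Nat.nth (· ∈ rset A ω) k)))) atTop) ∧
    (0 < κ → ∀ᵐ ω ∂P, supGap (rset A ω) ≤ ENNReal.ofReal (1 / κ)) ∧
    (κ = 0 → ∀ q : ℝ, 4 / 5 ≤ q → q < 1 → (∀ n, Real.exp (-ℓ n) = q) →
      ∀ᵐ ω ∂P, ENNReal.ofReal (1 / (1 - q)) < supGap (rset A ω)) := by
  refine ⟨main_lower hℓ hmono hκ hpos hsv hC P hA, fun h => main_upper hℓ hmono h P hA, ?_⟩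
  rintro rfl q hq hq1 hqℓ
  have hconst : ℓ = fun _ => ℓ 0 := by
    funext n
    have h1 := hqℓ n
    rw [← hqℓ 0] at h1
    have h2 := Real.exp_injective h1
    linarith
  have h0 : 0 < ℓ 0 := by
    rcases hpos with h | h
    · exact h
    · exact absurd h (lt_irrefl 0)
  have hA' : Perturbed (fun _ => ℓ 0) 0 P A := hconst ▸ hA
  have h3 := const_lower h0.le le_rfl (Or.inl h0) P hA'
  have h4 := cost_lt h0 (by rw [hqℓ 0]; exact hq)
  rw [hqℓ 0] at h4
  have h5 := cost_pos (κ := 0) h0.le le_rfl (Or.inl h0)
  filter_upwards [h3] with ω hω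
  refine lt_of_lt_of_le ?_ hω
  rw [ENNReal.ofReal_lt_ofReal_iff (by positivity)]
  exact one_div_lt_one_div_of_lt h5 h4

end Pool.Agent.Results.MP_ff81b6_nt.RandomPerturbations
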