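import Mathlib
import Pool.Agent.K4H50.GR.A5

set_option autoImplicit false

/-!
# Large prime gaps in regular surroundings

The largest known gaps between primes up to `x` have the size `f(x) / 4`, and at least `x ^ (1 - (4 + ε) G / f(x))` gaps
are at least `G`, for every `G` between `log x` and `(1 / 4 - ε) f(x)` (starting files). We show that as many of these
gaps lie in surroundings in which the primes have the right density at all larger scales, at the same time: for
arbitrary `α + β < 1`, for ALL `H` between `x ^ ((4 + ε) G / f(x))` and `x / 2` there are at least `α H / log x` primes in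
the interval of length `H` to the left of the gap and at least `β H / log x` in the interval of length `H` to the right.
For `α = 0` the right side has at least the proportion `1 - δ` of the expected number of primes at all scales. The range
of the scales begins at `x ^ κ` with `κ > 0` arbitrarily small (and at `x ^ o(1)` for `G = o(f(x))`), far below the
exponent `1/6` from which on the prime number theorem is known in almost all intervals.

Author: helper50 (rising sun lemma for blocks, `Pool.Agent.K4H50.GR`). It rests on the covering sieve in short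
intervals of the starting files (`Pool.Agent.Y831.RC`, `Pool.Agent.H256R2.SC`) and on the prime number theorem.
-/

namespace Pool.Agent.Results.MP_ff81b6_nt.RegularSurroundings

/-- `f(x) = log x (log log x)^2 log log log log x / (log log log x)^2` -/
noncomputable def f (x : ℝ) : ℝ :=
  Real.log x * (Real.log (Real.log x)) ^ 2 * Real.log (Real.log (Real.log (Real.log x))) /
    (Real.log (Real.log (Real.log x))) ^ 2

/-- The prime with index `n`, numbered from `p 0 = 2`. -/
noncomputable def p (n : ℕ) : ℕ := Nat.nth Nat.Prime n

/-- The number of primes up to `y`. -/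
noncomputable def pi (y : ℝ) : ℝ := Nat.primeCounting ⌊y⌋₊

/-- The indices `n` with `x < p_n`, `p_(n+1) ≤ 2 x`, `p_(n+1) - p_n ≥ G` such that for every `H` with
`Y ≤ H ≤ x / 2` there are at least `α H / log x` primes in `(p_n - H, p_n]` and at least `β H / log x` primes in
`(p_(n+1), p_(n+1) + H]`. -/
def regularGaps (x G Y α β : ℝ) : Set ℕ :=
  {n : ℕ | x < p n ∧ (p (n + 1) : ℝ) ≤ 2 * x ∧ G ≤ (p (n + 1) : ℝ) - p n ∧
    ∀ H : ℝ, Y ≤ H → H ≤ x / 2 →
      α * (H / Real.log x) ≤ pi (p n) - pi (p n - H) ∧
      β * (H / Real.log x) ≤ pi (p (n + 1) + H) - pi (p (n + 1))}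

/-- Let `α, β ≥ 0`, `α + β < 1` and `ε > 0`. For all large `x` and all `G` with `log x ≤ G ≤ (1 / 4 - ε) f(x)` at least
`x ^ (1 - (4 + ε) G / f(x))` gaps between consecutive primes of `(x, 2 x]` have length at least `G` and, for every `H`
with `x ^ ((4 + ε) G / f(x)) ≤ H ≤ x / 2`, at least `α H / log x` primes in the interval of length `H` to the left and
at least `β H / log x` primes in the interval of length `H` to the right. -/
theorem result (α β ε : ℝ) (hα : 0 ≤ α) (hβ : 0 ≤ β) (hαβ : α + β < 1) (hε : 0 < ε) :
    ∃ x₀ : ℝ, ∀ x : ℝ, x₀ ≤ x → ∀ G : ℝ, Real.log x ≤ G → G ≤ (1 / 4 - ε) * f x →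
      x ^ (1 - (4 + ε) * G / f x) ≤
        ((regularGaps x G (x ^ ((4 + ε) * G / f x)) α β).ncard : ℝ) := by
  have h := Pool.Agent.K4H50.GR.final (1 / 4) (by norm_num) (by norm_num)
    Pool.Agent.Y831.RC.run_quarter ε hε α β hα hβ hαβ
  norm_num only at h
  exact h

end Pool.Agent.Results.MP_ff81b6_nt.RegularSurroundings
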