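import Pool.Agent.K4H15.FinalF

set_option autoImplicit false

/-! # Exact numbers of primes in windows from the length `A log X` to `(log X)^(1 + δ)`

Cramér's model predicts windows `(n, n + h]` without primes for all `h` up to `(1 - ε) (log X)²`.  Empty
windows are known for `h` up to a constant times the record function `f(X)` only.  For longer windows we
bound the number of primes uniformly down to the record length: with `h = (log X)^(1 + 1/τ)` some window
has at most a constant times `log τ / (τ log log τ)` times the mean number `h / log X` of primes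
(Maier and Stewart treat a fixed `τ`), and every number of primes between this bound (or `0`, for
`h ≤ c f(X)`) and `e^γ - ε` times the mean occurs exactly, for at least `X^(1 - ε)` windows. -/

namespace Pool.Agent.Results.MP_ff81b6_nt.WindowCounts

/-- the number of primes `p` with `n < p ≤ n + h` -/
def primesIn (n h : ℕ) : ℕ := ((Finset.Ioc n (n + h)).filter Nat.Prime).card

/-- `f(x) = log x (log₂ x)² log₄ x / (log₃ x)²` (iterated natural logarithms) -/
noncomputable def f (x : ℝ) : ℝ :=
  Real.log x * (Real.log (Real.log x)) ^ 2 * Real.log (Real.log (Real.log (Real.log x))) /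
    (Real.log (Real.log (Real.log x))) ^ 2

/-- `τ(x, h) = log log x / log (h / log x)`, that is `h = (log x)^(1 + 1/τ)` -/
noncomputable def tau (x h : ℝ) : ℝ := Real.log (Real.log x) / Real.log (h / Real.log x)

/-- `b(x, h) = log τ / (τ log log τ)` with `τ = τ(x, h)` -/
noncomputable def b (x h : ℝ) : ℝ :=
  Real.log (tau x h) / (tau x h * Real.log (Real.log (tau x h)))

/-- For every `0 < ε < 1` there are positive `A, c, C, δ` such that for all large real `X`, all integers
`A log X ≤ h ≤ (log X)^(1+δ)` and all integers `m` with `m ≥ C b(X, h) h / log X` (any `m ≥ 0` if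
`h ≤ c f(X)`) and `m ≤ (e^γ - ε) h / log X`, at least `X^(1-ε)` positive integers `n ≤ X` have exactly `m`
primes in `(n, n + h]`. -/
theorem result : ∀ ε : ℝ, 0 < ε → ε < 1 →
    ∃ A c C δ X₀ : ℝ, 0 < A ∧ 0 < c ∧ 0 < C ∧ 0 < δ ∧
    ∀ X : ℝ, X₀ ≤ X → ∀ h : ℕ, A * Real.log X ≤ h → (h : ℝ) ≤ (Real.log X) ^ (1 + δ) →
    ∀ m : ℕ, ((h : ℝ) ≤ c * f X ∨ C * b X h * (h / Real.log X) ≤ m) →
    (m : ℝ) ≤ (Real.exp Real.eulerMascheroniConstant - ε) * (h / Real.log X) →
    X ^ (1 - ε) ≤ ({n : ℕ | 1 ≤ n ∧ (n : ℝ) ≤ X ∧ primesIn n h = m}.ncard : ℝ) := by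
  intro ε hε hε1
  obtain ⟨A, c, C, δ, X₀, hA, hc, hC, hδ, H⟩ := Pool.Agent.K4H15.exact_counts ε hε hε1
  refine ⟨A, c, C, δ, max X₀ 1, hA, hc, hC, hδ, fun X hX h h1 h2 m hm1 hm2 => ?_⟩
  have hX0 : 0 ≤ X := le_trans zero_le_one ((le_max_right _ _).trans hX)
  refine (H X ((le_max_left _ _).trans hX) h h1 h2 _ rfl m ?_ hm2).trans (le_of_eq ?_)
  · rcases hm1 with hm1 | hm1
    · exact Or.inl hm1
    · refine Or.inr (le_trans (le_of_eq ?_) hm1)
      unfold b tau
      ring
  · rw [← Set.ncard_coe_finset]
    congr 2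
    ext n
    simp only [Finset.coe_filter, Finset.mem_Icc, Set.mem_ofPred_eq]
    rw [Nat.le_floor_iff hX0]
    have key : Pool.Agent.K4H15.cn n h = primesIn n h := by
      unfold Pool.Agent.K4H15.cn primesIn
      apply Finset.card_bij (fun k _ => n + k)
      · intro k hk
        rw [Finset.mem_filter, Finset.mem_Icc] at hk
        rw [Finset.mem_filter, Finset.mem_Ioc]
        exact ⟨⟨by omega, by omega⟩, hk.2⟩
      · intro a _ b _ hab
        exact Nat.add_left_cancel hab
      · intro b hb
        rw [Finset.mem_filter, Finset.mem_Ioc] at hb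
        refine ⟨b - n, ?_, by omega⟩
        rw [Finset.mem_filter, Finset.mem_Icc, Nat.add_sub_cancel' hb.1.1.le]
        exact ⟨⟨by omega, by omega⟩, hb.2⟩
    rw [key]
    tauto

end Pool.Agent.Results.MP_ff81b6_nt.WindowCounts
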